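import Pool.Agent.Helper92.RT.Defs
import Pool.Agent.Helper81.Sus2.Defs

/-!
# Parallel machines and descriptions of their memory: definitions
-/

namespace Pool.Agent.Helper92.RT

open Pool.Agent.Helper65.LinSpace Pool.Agent.Helper78.Mpc Pool.Agent.Helper28.Ram
open Pool.Agent.Helper81.Sus2 (Decomp)

/-- Let `f u` be the contents of the registers after `u` phases. Up to the phase `t` and for all
names of at most `s` bits, the contents of registers have at most `b` bits, processors halt after at
most `r` reads, their states have at most `m` bits, and they note words of at most `a` bits and read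
registers with names of at most `s` bits. -/
def PAR.AllFit (A : PAR) (f : ℕ → List Bool → List Bool) (r s a b m t : ℕ) : Prop :=
  ∀ x : List Bool, x.length ≤ s → (∀ u ≤ t, (f u x).length ≤ b) ∧
    (x.head? ≠ some false → ∀ u < t, ∃ n ≤ r, A.addr (A.state (f u) x n) = [] ∧
      (∀ i ≤ n, (A.state (f u) x i).length ≤ m) ∧
      ∀ i < n, A.addr (A.state (f u) x i) ≠ [] ∧ (A.addr (A.state (f u) x i)).length ≤ s ∧
        (A.look (sd (A.state (f u) x i) ++ f u (A.addr (A.state (f u) x i)))).length ≤ a)

/-- `D` is a description of the memory `R`: the decompressor computes from `D` the contents of all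
registers which are not read-only and have names of at most `s` bits, with words of at most `m`
bits. -/
def Describes (E : Decomp) (w y : List Bool) (m s : ℕ) (D : List Bool)
    (R : List Bool → List Bool) : Prop :=
  ∀ x : List Bool, x.length ≤ s → x.head? ≠ some false → E.Says w y m D x (R x)

/-- `A` accepts the input word `w` with the advice word `y` by the content of a register `X` after
some number `t` of phases and within the following bounds, where `n` is the length of `w` and
`l = ⌊log₂ n⌋ + 1`: all processors with names of at most `s` bits make in a phase at most `r` reads,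
note words of at most `a` bits, and have states of at most `m` bits, all registers with such names
have contents of at most `b` bits; among any `d` consecutive phases up to the phase `t` there is one
after which the memory has a description of at most `c (n + 1)` bits; and for some number `e ≥ 1`
`d ((e + l) s + r l / e) l ≤ C (n + 1)` and `(e (a + b) + r a + m) l ^ 2 ≤ C (n + 1)`. There is no
bound for `t`. -/
def PAR.WithinD (A : PAR) (E : Decomp) (c : ℕ) (C : ℝ) (w y : List Bool) : Prop :=
  ∃ (t : ℕ) (X : List Bool) (d r s a b m e : ℕ), 0 < s ∧ 0 < a ∧ 0 < e ∧ X.length ≤ s ∧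
    A.AcceptsAt w y t X ∧ A.AllFit (A.conf w y) r s a b m t ∧
    (∀ u, u + d ≤ t → ∃ v, u < v ∧ v ≤ u + d ∧ ∃ D : List Bool, D.length ≤ c * (w.length + 1) ∧
      Describes E w y m s D (A.conf w y v)) ∧
    (d : ℝ) * (((e : ℝ) + ((Nat.log 2 w.length : ℝ) + 1)) * s +
        (r : ℝ) * ((Nat.log 2 w.length : ℝ) + 1) / e) * ((Nat.log 2 w.length : ℝ) + 1) ≤
      C * ((w.length : ℝ) + 1) ∧
    ((e : ℝ) * ((a : ℝ) + b) + (r : ℝ) * a + m) * ((Nat.log 2 w.length : ℝ) + 1) ^ 2 ≤
      C * ((w.length : ℝ) + 1)

end Pool.Agent.Helper92.RT
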