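import Pool.Agent.Helper92.RTS.Num

/-!
# Parallel machines and descriptions of their memory: linear space
-/

set_option exponentiation.threshold 50000

namespace Pool.Agent.Helper92.RT

open Pool.Agent.Helper65.LinSpace Pool.Agent.Helper78.Mpc Pool.Agent.Helper28.Ram Finset Filter
open Pool.Agent.Helper65.RT (qT CT Par LSM Sim)
open Pool.Agent.Helper31.SusD (itr)

variable {α : Type} [Ctx α] {P : α → Prm} {C : α → ℕ}

theorem lsp_comp {β : Type} [Ctx β] (h : LSP P C) {π : β → α} (hπ : LS π) :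
    LSP (fun b => P (π b)) (fun b => C (π b)) where
  eA := LS.comp (g := fun z => (P z).eA) h.eA hπ
  eL := LS.comp (g := fun z => (P z).eL) h.eL hπ
  eN := LS.comp (g := fun z => (P z).eN) h.eN hπ
  eO := LS.comp (g := fun z => (P z).eO) h.eO hπ
  ini := LS.comp (g := fun z => (P z).ini) h.ini hπ
  B0 := LS.comp (g := fun z => (P z).B0) h.B0 hπ
  Λ := LS.comp (g := fun z => (P z).Λ) h.Λ hπ
  β := LS.comp (g := fun z => (P z).β) h.β hπ
  B := LS.comp (g := fun z => (P z).B) h.B hπ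
  x := LS.comp (g := fun z => (P z).x) h.x hπ
  y := LS.comp (g := fun z => (P z).y) h.y hπ
  S := LS.comp (g := fun z => (P z).S) h.S hπ
  D := LS.comp (g := fun z => (P z).D) h.D hπ
  V := LS.comp (g := fun z => (P z).V) h.V hπ
  M := LS.comp (g := fun z => (P z).M) h.M hπ
  E := LS.comp (g := fun z => (P z).E) h.E hπ
  G := LS.comp (g := fun z => (P z).G) h.G hπ
  K := LS.comp (g := fun z => (P z).K) h.K hπ
  bd := LS.comp (g := C) h.bd hπ
  hβ := fun b => h.hβ (π b)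
  hb := fun b => h.hb (π b)
  hS := fun b => h.hS (π b)
  hD := fun b => h.hD (π b)
  hV := fun b => h.hV (π b)
  hM := fun b => h.hM (π b)

theorem ls_dm (h : LSP P C) (hM2 : ∀ z, 2 ^ ((P z).M + 2) ≤ C z) {eD eX c x : α → ℕ}
    (hD : LS eD) (hX : LS eX) (hc : LS c) (hx : LS x) :
    LS (fun z => dm (P z) (eD z) (eX z) (c z) (x z)) := by
  have h4 : ∀ z, 2 ^ 2 ≤ C z := fun z =>
    (Nat.pow_le_pow_right (by norm_num) (by omega)).trans (hM2 z)
  have h' : Pool.Agent.Helper81.Sus2.LSP (fun z => dpr (P z) (eD z) (eX z)) C :=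
    ⟨LS.const 0, LS.const 0, LS.const 0, LS.const 0, LS.const 0, LS.const 0, hD, hX, LS.const 0,
      LS.const 0, LS.const 0, h.Λ, h.β, h.B, h.x, h.y, LS.const 0, h.M, LS.const 0, LS.const 0,
      LS.const 0, h.bd, h.hβ, h.hb, h4, hM2, h4,
      fun z => (Nat.pow_le_pow_right (by norm_num) (Nat.zero_le 2)).trans (h4 z), h4⟩
  unfold dm
  exact LS.ifz (LS.lt01 (LS.const 1) hc) (LS.const 1)
    (Pool.Agent.Helper81.Sus2H56.ls_lk h' (LS.sub hc (LS.const 1)) hx)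

theorem lsm_mK {m : α → Pool.Agent.Helper65.RT.Mach} (h : LSM m C) {τ : α → ℕ} (hτ : LS τ) :
    LSM (fun z => mK (m z) (τ z)) C where
  σ := h.σ
  a := h.a
  b := h.b
  E := h.E
  G := h.G
  K := LS.min hτ h.K
  q := h.q
  g := h.g
  o := h.o
  t0 := h.t0
  root := h.root
  bd := h.bd
  ok := fun z => ok_mK (h.ok z) _
  hC := h.hC
  hS := h.hS

/-- The parameters are admissible. -/
structure Adm (P : α → Prm) (x : α → ℕ) : Prop where
  par : ∀ z (f : ℕ → ℕ) (X : ℕ), Par (Nat.log 2 (x z)) ((P z).mach f X)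
  hE : ∀ z, 0 < (P z).E
  hG : ∀ z, 0 < (P z).G
  hM2 : ∀ z, 2 ^ ((P z).M + 2) ≤ CT (x z)

theorem ls_FD (Q : Sim) {x : α → ℕ} (hx : LS x) (h : LSP P (fun z => CT (x z))) (hA : Adm P x)
    {eD eX c τ X : α → ℕ} (hD : LS eD) (hX : LS eX) (hc : LS c) (hτ : LS τ) (hr : LS X) :
    LS (fun z => FD Q (Nat.log 2 (x z)) (P z) (eD z) (eX z) (c z) (τ z) (X z)) := by
  unfold FD
  have hf : LS (fun b : α × ℕ => dm (P b.1) (eD b.1) (eX b.1) (c b.1) b.2) := by
    have p1 : LS (fun b : α × ℕ => b.1) := by fun_prop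
    exact ls_dm (lsp_comp h p1) (fun b => hA.hM2 b.1) (LS.comp (g := eD) hD p1)
      (LS.comp (g := eX) hX p1) (LS.comp (g := c) hc p1) (by fun_prop)
  have hn := fun z : α => Q.nv ((P z).mach (dm (P z) (eD z) (eX z) (c z)) (X z)) (x z)
    (ok_mach _ _ _ (hA.hE z) (hA.hG z)) (hA.par z _ _)
  exact Q.ls hx (lsm_mK (lsm_mach h hf hr hA.hE hA.hG (fun z => (hn z).1) fun z => (hn z).2) hτ)
    fun z => par_mK (hA.par z _ _) _

theorem ls_pow_S (h : LSP P C) : LS (fun z => 2 ^ ((P z).S + 1)) := by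
  have := h.S
  exact LS.pow_of_le (f := fun _ => 2) (g := fun z => (P z).S + 1) (by fun_prop) (by fun_prop) h.bd
    h.hS

omit [Ctx α] in
theorem adm_comp {β : Type} {x : α → ℕ} (hA : Adm P x) (π : β → α) :
    Adm (fun b => P (π b)) (fun b => x (π b)) :=
  ⟨fun z => hA.par (π z), fun z => hA.hE (π z), fun z => hA.hG (π z), fun z => hA.hM2 (π z)⟩

theorem ls_chk (Q : Sim) {x : α → ℕ} (hx : LS x) (h : LSP P (fun z => CT (x z))) (hA : Adm P x)
    {eD eX c τ d : α → ℕ} (hD : LS eD) (hX : LS eX) (hc : LS c) (hτ : LS τ) (hd : LS d) :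
    LS (fun z => chk Q (Nat.log 2 (x z)) (P z) (eD z) (eX z) (c z) (τ z) (d z)) := by
  unfold chk
  refine LS.mul (LS.lt01 (LS.const 0) hτ) (LS.mul (LS.lt01 (LS.const 1) hd)
    (LS.eq01 (LS.sum_le (B := fun _ => 1) ?_ (ls_pow_S h) (LS.const 1)
      fun z i _ => Nat.sub_le 1 _) (LS.const 0)))
  unfold okx
  have p1 : LS (fun b : α × ℕ => b.1) := by fun_prop
  have p2 : LS (fun b : α × ℕ => b.2) := by fun_prop
  exact LS.sub (LS.const 1) (LS.ifz (ls_rt p2) (LS.const 1)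
    (LS.eq01 (ls_FD Q (LS.comp (g := x) hx p1) (lsp_comp h p1) (adm_comp hA _)
      (LS.comp (g := eD) hD p1) (LS.comp (g := eX) hX p1) (LS.comp (g := c) hc p1)
      (LS.comp (g := τ) hτ p1) p2)
      (ls_dm (lsp_comp h p1) (fun b => hA.hM2 b.1) (LS.comp (g := eD) hD p1)
        (LS.comp (g := eX) hX p1) (LS.comp (g := d) hd p1) p2)))

theorem chk_le (Q : Sim) (n : ℕ) (P : Prm) (eD eX c τ d : ℕ) : chk Q n P eD eX c τ d ≤ 1 := by
  unfold chk lt01 eq01
  split_ifs <;> norm_num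

theorem ls_cz (c : ℕ) {x C : α → ℕ} (hx : LS x) (hC : LS C)
    (hb : ∀ z, 2 ^ (c * (Nat.log 2 (x z) + 1) + 1) ≤ C z) :
    LS (fun z => cz c (Nat.log 2 (x z))) := by
  unfold cz
  exact LS.add (LS.pow_of_le (f := fun _ => 2) (g := fun z => c * (Nat.log 2 (x z) + 1) + 1)
    (by fun_prop) (by fun_prop) hC hb) (LS.const 1)

theorem acc_le (Q : Sim) (n : ℕ) (P : Prm) (eD eX X c τ : ℕ) : acc Q n P eD eX X c τ ≤ 1 := by
  unfold acc lt01
  have := accN_le (FD Q n P eD eX c τ X)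
  split_ifs <;> omega

theorem ls_rch (Q : Sim) (c : ℕ) {x C : α → ℕ} (hx : LS x) (h : LSP P (fun z => CT (x z)))
    (hA : Adm P x) (hC : LS C) (hb : ∀ z, 2 ^ (c * (Nat.log 2 (x z) + 1) + 1) ≤ C z)
    {eD eX X : α → ℕ} (hD : LS eD) (hX : LS eX) (hr : LS X) :
    LS (fun z => rch Q c (Nat.log 2 (x z)) (P z) (eD z) (eX z) (X z)) := by
  unfold rch
  have hz := ls_cz c hx hC hb
  have hK := h.K
  refine LS.sum_le (N := fun z => cz c (Nat.log 2 (x z))) (B := fun z => (P z).K + 1)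
    (f := fun z j => ∑ τ ∈ range ((P z).K + 1), acc Q (Nat.log 2 (x z)) (P z) (eD z) (eX z) (X z)
      (itr (chk Q (Nat.log 2 (x z)) (P z) (eD z) (eX z)) ((P z).K + 1)
        (cz c (Nat.log 2 (x z))) j) τ) ?_ hz (by fun_prop) ?_
  · have q1 : LS (fun b : α × ℕ => b.1) := by fun_prop
    refine LS.sum_le (N := fun b : α × ℕ => (P b.1).K + 1) (B := fun _ => 1)
      (f := fun b τ => acc Q (Nat.log 2 (x b.1)) (P b.1) (eD b.1) (eX b.1) (X b.1)
        (itr (chk Q (Nat.log 2 (x b.1)) (P b.1) (eD b.1) (eX b.1)) ((P b.1).K + 1)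
          (cz c (Nat.log 2 (x b.1))) b.2) τ) ?_
      (LS.add (LS.comp (g := fun z => (P z).K) hK q1) (LS.const 1)) (LS.const 1)
      fun b i _ => acc_le _ _ _ _ _ _ _ _
    have p1 : LS (fun b : (α × ℕ) × ℕ => b.1.1) := by fun_prop
    have hit : LS (fun b : (α × ℕ) × ℕ =>
        itr (chk Q (Nat.log 2 (x b.1.1)) (P b.1.1) (eD b.1.1) (eX b.1.1)) ((P b.1.1).K + 1)
          (cz c (Nat.log 2 (x b.1.1))) b.1.2) := by
      refine Pool.Agent.Helper31.SusD.LS.itr (N := fun b : (α × ℕ) × ℕ => (P b.1.1).K + 1)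
        (Z := fun b => cz c (Nat.log 2 (x b.1.1))) (j := fun b => b.1.2)
        (chk := fun b => chk Q (Nat.log 2 (x b.1.1)) (P b.1.1) (eD b.1.1) (eX b.1.1))
        (LS.add (LS.comp (g := fun z => (P z).K) hK p1) (LS.const 1))
        (LS.comp (g := fun z => cz c (Nat.log 2 (x z))) hz p1) (by fun_prop) ?_
        fun b c τ d => chk_le _ _ _ _ _ _ _ _
      have r1 : LS (fun z : ((α × ℕ) × ℕ) × ℕ × ℕ × ℕ => z.1.1.1) := by fun_prop
      exact ls_chk Q (LS.comp (g := x) hx r1) (lsp_comp h r1) (adm_comp hA _)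
        (LS.comp (g := eD) hD r1) (LS.comp (g := eX) hX r1) (by fun_prop) (by fun_prop)
        (by fun_prop)
    unfold acc
    exact LS.mul (LS.lt01 (LS.const 0) hit) (Pool.Agent.Helper59.Ram.LS_accN
      (ls_FD Q (LS.comp (g := x) hx p1) (lsp_comp h p1) (adm_comp hA _)
        (LS.comp (g := eD) hD p1) (LS.comp (g := eX) hX p1) hit (by fun_prop)
        (LS.comp (g := X) hr p1)))
  · intro z i _
    refine (sum_le_sum (g := fun _ => 1) fun i _ => acc_le _ _ _ _ _ _ _ _).trans ?_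
    rw [sum_const, card_range, smul_eq_mul, mul_one]

end Pool.Agent.Helper92.RT
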