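import Pool.Agent.Helper92.RTS.Lin

/-!
# Parallel machines need phases with incompressible memory
-/

set_option exponentiation.threshold 50000

namespace Pool.Agent.Helper92.RT

open Pool.Agent.Helper65.LinSpace Pool.Agent.Helper78.Mpc Pool.Agent.Helper28.Ram Finset Filter
open Pool.Agent.Helper65.RT (qT CT Par LSM Sim)
open Pool.Agent.Helper28.Long (ZL)
open Pool.Agent.Helper81.Sus2 (Decomp CodE)
open Pool.Agent.Helper31.SusD (itr itr_sound itr_complete)

variable {A : PAR} {w y : List Bool}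

theorem one_lt_cz (c n : ℕ) : 1 < cz c n := by
  unfold cz
  have : 0 < 2 ^ (c * (n + 1) + 1) := by positivity
  omega

/-- Soundness. -/
theorem rch_sound (Q : Sim) {n : ℕ} {P : Prm} (h : Ready A w y n P) {c eD eX : ℕ} {X : List Bool}
    (hX : X.length ≤ P.S) (hX' : X.head? ≠ some false)
    (hr : rch Q c n P eD eX (num X) ≠ 0) : ∃ t, A.AcceptsAt w y t X := by
  unfold rch at hr
  obtain ⟨j, _, hj⟩ := exists_ne_zero_of_sum_ne_zero hr
  obtain ⟨τ, hτ, hj⟩ := exists_ne_zero_of_sum_ne_zero hj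
  have hτ' : τ ≤ P.K := by
    rw [mem_range] at hτ
    omega
  unfold acc at hj
  have h1 := lt01_ne (left_ne_zero_of_mul hj)
  have h2 := right_ne_zero_of_mul hj
  rcases itr_sound (chk := chk Q n P eD eX) (N := P.K + 1) (Z := cz c n)
    (R := fun c' t => Rs A w y P eD eX c' t)
    (fun x hx hh => Or.inr (rc_one A w y P eD eX x hx hh))
    (fun c' t τ' d hR hτ' hc => chk_sound Q h hR (by omega) hc) j with h3 | ⟨t, h3⟩
  · omega
  · rcases FD_sound Q h h3 hτ' hX with h4 | h4
    · rw [h4] at h2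
      exact absurd rfl h2
    · rw [h4] at h2
      exact ⟨t + τ, hX', (accN_num _).1 (le_antisymm (accN_le _) (Nat.pos_of_ne_zero h2))⟩

/-- Completeness. -/
theorem rch_complete (Q : Sim) {n : ℕ} {P : Prm} (h : Ready A w y n P) {c eD eX : ℕ}
    {X : List Bool} (hX : X.length ≤ P.S) {r t : ℕ} (hr : r ≤ P.G * P.E)
    (hall : A.AllFit (A.conf w y) r P.S P.D P.V P.M t) (hacc : A.AcceptsAt w y t X) {E : Decomp}
    (hE : CodE E (dpr P eD eX))
    (hd : ∀ u, u + P.K ≤ t → ∃ v, u < v ∧ v ≤ u + P.K ∧ ∃ D : List Bool,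
      D.length ≤ c * (n + 1) ∧ Describes E w y P.M P.S D (A.conf w y v)) :
    rch Q c n P eD eX (num X) ≠ 0 := by
  have hZ := one_lt_cz c n
  have key := itr_complete (chk := chk Q n P eD eX) (ac := acc Q n P eD eX (num X))
    (N := P.K + 1) (Z := cz c n) (r := t)
    (R := fun c' t' => c' ≠ 0 ∧ (t' ≤ t → Rc A w y P eD eX c' t')) hZ
    ⟨one_ne_zero, fun _ => rc_one A w y P eD eX⟩ (fun c' t' hc => hc.1)
    (fun c' t' τ d hR hτ hc => by
      obtain ⟨h1, h2, _⟩ := chk_ne hc
      refine ⟨⟨by omega, fun ht => ?_⟩, h1⟩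
      exact chk_exact Q h (hR.2 (by omega)) (by omega) hr hall ht hc)
    (fun c' t' hR ht => by
      have hR' := hR.2 ht
      rcases Nat.lt_or_ge t (t' + P.K) with h1 | h1
      · left
        refine ⟨t - t', by omega, ?_⟩
        have h2 := FD_complete Q h hR' (show t - t' ≤ P.K by omega) hX hr hall
          (show t' + (t - t') ≤ t by omega)
        unfold acc lt01
        rw [if_pos (Nat.pos_of_ne_zero hR.1), h2, show t' + (t - t') = t by omega,
          (accN_num _).2 hacc.2]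
        norm_num
      · right
        obtain ⟨v, h2, h3, D, h4, h5⟩ := hd t' h1
        refine ⟨v - t', by omega, num D + 1, ?_, by omega, ?_⟩
        · unfold cz
          have h6 := Pool.Agent.Helper81.Sus2.num_lt_pow h4
          omega
        · refine chk_of Q h hR' (by omega) (by omega) hr hall (show t' + (v - t') ≤ t by omega) hE ?_
          rw [show t' + (v - t') = v by omega]
          exact h5)
  obtain ⟨j, hj, hj0, τ, hτ, hne⟩ := key
  unfold rch
  intro hsum
  rw [sum_eq_zero_iff] at hsum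
  have h1 := hsum j (mem_range.2 hj)
  rw [sum_eq_zero_iff] at h1
  exact hne (h1 τ (mem_range.2 hτ))

/-! ### The simulation -/

/-- The simulation: not `0` if the machine with the code `e` accepts, with the bounds and the root
coded by `T`. -/
noncomputable def accD (Q : Sim) (c e x y T : ℕ) : ℕ :=
  rt (capN (prT (Nat.unpair e).1 x y (T % bs x ^ 7)).S (T / bs x ^ 7)) *
    rch Q c (Nat.log 2 x) (prT (Nat.unpair e).1 x y (T % bs x ^ 7))
      (Nat.unpair (Nat.unpair e).2).1 (Nat.unpair (Nat.unpair e).2).2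
      (capN (prT (Nat.unpair e).1 x y (T % bs x ^ 7)).S (T / bs x ^ 7))

theorem prT_spec (e x y T : ℕ) :
    (∀ (f : ℕ → ℕ) (X : ℕ), Par (Nat.log 2 x) ((prT e x y T).mach f X)) ∧
      0 < (prT e x y T).E ∧ 0 < (prT e x y T).G ∧
      (prT e x y T).S + (prT e x y T).D + (prT e x y T).V + (prT e x y T).M ≤
        ZL (Nat.log 2 x) :=
  prm_spec (cde e) x y (dig (bs x) T 0) (dig (bs x) T 1) (dig (bs x) T 2) (dig (bs x) T 3)
    (dig (bs x) T 4) (dig (bs x) T 5) (dig (bs x) T 6)

theorem prT_M (e x y T : ℕ) : 2 ^ ((prT e x y T).M + 2) ≤ CT x := by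
  obtain ⟨-, -, -, h⟩ := prT_spec e x y T
  have h1 := Pool.Agent.Helper28.Long.ZL_le (Nat.log 2 x)
  exact two_pow_CT (by omega)

theorem LS.accD (Q : Sim) (c : ℕ) :
    LS (fun z : ℕ × ℕ × ℕ × ℕ => accD Q c z.1 z.2.1 z.2.2.1 z.2.2.2) := by
  unfold RT.accD
  have hx : LS (fun z : ℕ × ℕ × ℕ × ℕ => z.2.1) := by fun_prop
  have he : LS (fun z : ℕ × ℕ × ℕ × ℕ => (Nat.unpair z.1).1) := by fun_prop
  have hb : LS (fun z : ℕ × ℕ × ℕ × ℕ => bs z.2.1 ^ 7) := LS.pow_const (ls_bs hx) 7
  have hT : LS (fun z : ℕ × ℕ × ℕ × ℕ => z.2.2.2 % bs z.2.1 ^ 7) := by fun_prop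
  have hX : LS (fun z : ℕ × ℕ × ℕ × ℕ => z.2.2.2 / bs z.2.1 ^ 7) := by fun_prop
  have h : LSP (fun z : ℕ × ℕ × ℕ × ℕ =>
      prT (Nat.unpair z.1).1 z.2.1 z.2.2.1 (z.2.2.2 % bs z.2.1 ^ 7))
      (fun z : ℕ × ℕ × ℕ × ℕ => CT z.2.1) := lsp_prT he hx (by fun_prop) hT
  have hS := h.S
  have hcap : LS (fun z : ℕ × ℕ × ℕ × ℕ =>
      capN (prT (Nat.unpair z.1).1 z.2.1 z.2.2.1 (z.2.2.2 % bs z.2.1 ^ 7)).S
        (z.2.2.2 / bs z.2.1 ^ 7)) := by fun_prop
  refine LS.mul (ls_rt hcap) ?_
  have hC : LS (fun z : ℕ × ℕ × ℕ × ℕ => (z.2.1 + 2) ^ (2 * (c + 1))) :=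
    (LS.add hx (LS.const 2)).pow_const _
  refine ls_rch Q c hx h ⟨fun z f X => (prT_spec _ _ _ _).1 f X, fun z => (prT_spec _ _ _ _).2.1,
    fun z => (prT_spec _ _ _ _).2.2.1, fun z => prT_M _ _ _ _⟩ hC (fun z => ?_) (by fun_prop)
    (by fun_prop) hcap
  refine le_trans (Nat.pow_le_pow_right (by norm_num) ?_) (two_pow_log_le z.2.1 (c + 1))
  have : (c + 1) * (Nat.log 2 z.2.1 + 1) = c * (Nat.log 2 z.2.1 + 1) + (Nat.log 2 z.2.1 + 1) := by
    ring
  omega

theorem exists_goodD (Q : Sim) (c : ℕ) (A : PAR) (E : Decomp) (C : ℝ) : ∃ e n₀ : ℕ,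
    ∀ w y : List Bool, n₀ ≤ w.length →
    (∀ T < NB (num w), accD Q c e (num w) (num y) T ≠ 0 → ∃ t X, A.AcceptsAt w y t X) ∧
    (A.WithinD E c C w y → ∃ T < NB (num w), accD Q c e (num w) (num y) T ≠ 0) := by
  obtain ⟨co, k, hcod⟩ := exists_cod A
  obtain ⟨eD, eX, k', hcodE⟩ := exists_codE E
  obtain ⟨e, he⟩ := exists_cde co
  obtain ⟨n₁, hn₁⟩ := eventually_atTop.1 (ev_cod (k + 4 * k' + 16))
  obtain ⟨n₂, hn₂⟩ := eventually_atTop.1 (ev_good C)
  refine ⟨Nat.pair e (Nat.pair eD eX), n₁ + n₂, fun w y hw => ?_⟩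
  have hlog := log_num w
  -- the code of the machine is good
  have hCE : ∀ T, Ready A w y w.length (prT e (num w) (num y) T) ∧
      CodE E (dpr (prT e (num w) (num y) T) eD eX) := by
    intro T
    obtain ⟨p1, p2, p3, p4⟩ := prT_spec e (num w) (num y) T
    obtain ⟨q1, q2, q3, q4⟩ := prm_pow (cde e) (num w) (num y) (dig (bs (num w)) T 0)
      (dig (bs (num w)) T 1) (dig (bs (num w)) T 2) (dig (bs (num w)) T 3) (dig (bs (num w)) T 4)
      (dig (bs (num w)) T 5) (dig (bs (num w)) T 6)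
    obtain ⟨r1, r2⟩ := hn₁ (Nat.log 2 (num w)) (by rw [hlog]; omega) _ p4
    rw [hlog] at p1
    constructor
    · refine ⟨hcod w y (prT e (num w) (num y) T) he rfl rfl ?_ ?_ q1 q2 q3 q4, p1, p2, p3⟩
      · exact le_trans (Nat.mul_le_mul_right _ (by omega)) r1
      · refine le_trans ?_ r2
        show k + LW (Nat.log 2 (num w)) + _ + 4 ≤ _
        omega
    · refine hcodE (prT e (num w) (num y) T) ?_ ?_ q4
      · refine le_trans ?_ r1
        show k' * (4 * (prT e (num w) (num y) T).M + 16) ≤ _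
        generalize (prT e (num w) (num y) T).M = M at *
        generalize (prT e (num w) (num y) T).S + (prT e (num w) (num y) T).D +
          (prT e (num w) (num y) T).V = u at *
        calc k' * (4 * M + 16) ≤ 4 * k' * (4 * (u + M) + 4) := by
              have : 4 * k' * (4 * (u + M) + 4) = k' * (16 * u + 16 * M + 16) := by ring
              rw [this]
              exact Nat.mul_le_mul_left _ (by omega)
          _ ≤ _ := Nat.mul_le_mul_right _ (by omega)
      · refine le_trans ?_ r2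
        show k' + LW (Nat.log 2 (num w)) + 4 * (prT e (num w) (num y) T).M + 16 ≤ _
        omega
  constructor
  · intro T hT hne
    unfold accD at hne
    simp only [Nat.unpair_pair] at hne
    set T₀ := T % bs (num w) ^ 7
    set P := prT e (num w) (num y) T₀ with hP
    obtain ⟨u, hu, hu'⟩ := rt_ne (left_ne_zero_of_mul hne)
    have h1 := right_ne_zero_of_mul hne
    have hul : u.length ≤ P.S := len_of_num_lt (by rw [hu]; exact capN_lt _ _)
    rw [← hu, hlog] at h1
    obtain ⟨t, ht⟩ := rch_sound Q (hCE T₀).1 hul hu' h1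
    exact ⟨t, u, ht⟩
  · rintro ⟨t, X, d, r, s, a, b, m, e', hs, ha, he', hXs, hacc, hall, hdesc, b1, b2⟩
    have hd : 0 < d := by
      rcases Nat.eq_zero_or_pos d with h | h
      · subst h
        obtain ⟨v, h1, h2, _⟩ := hdesc 0 (Nat.zero_le _)
        omega
      · exact h
    obtain ⟨g1, g2, g3, g4, g5, g6, g7, g8⟩ := hn₂ w.length (by omega) d r s a b m e' hd hs ha he'
      b1 b2
    have hbs : bs (num w) = 4 * (w.length + 2) := by
      unfold bs
      rw [hlog]
    obtain ⟨t0, t1, t2, t3, t4, t5, t6, t7⟩ := tcode_spec (x := num w) (d := d) (e := e')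
      (g := r / e' + 1) (s := s) (a := a) (b := b) (m := m) (by rw [hbs]; exact g2)
      (by rw [hbs]; exact g3) (by rw [hbs]; exact g4) (by rw [hbs]; exact g5)
      (by rw [hbs]; exact g6) (by rw [hbs]; exact g7) (by rw [hbs]; exact g8)
    generalize tcode (num w) d e' (r / e' + 1) s a b m = T₀ at t0 t1 t2 t3 t4 t5 t6 t7
    have hQ : prT e (num w) (num y) T₀ =
        prm0 (cde e) (num w) (num y) d e' (r / e' + 1) s a b m := by
      unfold prT
      rw [t1, t2, t3, t4, t5, t6, t7]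
      refine prm_good _ ?_
      rw [hlog]
      exact g1
    obtain ⟨hR, hCodE⟩ := hCE T₀
    rw [hQ] at hR hCodE
    -- the code of the bounds and the root
    have e1 : (T₀ + bs (num w) ^ 7 * num X) % bs (num w) ^ 7 = T₀ := by
      rw [Nat.add_mul_mod_self_left, Nat.mod_eq_of_lt t0]
    have e2 : (T₀ + bs (num w) ^ 7 * num X) / bs (num w) ^ 7 = num X := by
      rw [Nat.add_mul_div_left _ _ (by omega), Nat.div_eq_of_lt t0, zero_add]
    refine ⟨T₀ + bs (num w) ^ 7 * num X, ?_, ?_⟩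
    · have hX1 : num X < (num w + 2) ^ 8 := by
        have u1 := Pool.Agent.Helper81.Sus2.num_lt_pow hXs
        have u2 : (d + 1) * (s + 1) ≤ 4 * qT w.length := (good_ne g1).2.2.1
        have u3 : s + 1 ≤ (d + 1) * (s + 1) := Nat.le_mul_of_pos_left _ (by omega)
        have u4 := qT_le w.length
        have u5 : 2 ^ (s + 1) ≤ 2 ^ (4 * (Nat.log 2 (num w) + 1)) :=
          Nat.pow_le_pow_right (by norm_num) (by rw [hlog]; omega)
        have u6 := two_pow_log_le (num w) 4
        exact lt_of_lt_of_le u1 (u5.trans u6)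
      unfold NB
      calc T₀ + bs (num w) ^ 7 * num X < bs (num w) ^ 7 + bs (num w) ^ 7 * num X := by omega
        _ = bs (num w) ^ 7 * (num X + 1) := by ring
        _ ≤ _ := Nat.mul_le_mul_left _ hX1
    · unfold accD
      simp only [Nat.unpair_pair]
      rw [e1, e2, hQ, hlog]
      have hcap : capN (prm0 (cde e) (num w) (num y) d e' (r / e' + 1) s a b m).S (num X) =
          num X := capN_num hXs
      rw [hcap, rt_num hacc.1, one_mul]
      have hr : r ≤ (r / e' + 1) * e' := by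
        have := Nat.div_add_mod r e'
        have := Nat.mod_lt r he'
        have : (r / e' + 1) * e' = e' * (r / e') + e' := by ring
        omega
      exact rch_complete Q hR (X := X) hXs hr hall hacc hCodE hdesc

/-- **Average-case hardness for parallel machines without phases with incompressible memory.** -/
theorem parD_main (Q : Sim) (c : ℕ) :
    ∃ (L : Set (List Bool)) (s : ℕ → List Bool), DLINSPACE L ∧
      (∀ n, (s n).length = n) ∧
      (∀ w, w ∈ L ↔ Odd ((List.zipWith and (s w.length) w).count true)) ∧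
      ∀ (A : PAR) (E : Decomp) (C : ℝ), ∃ c' : ℝ, ∀ (n : ℕ) (α : List Bool),
        ∀ M, M = L ∨ M = Lᶜ →
        ({w : List Bool | w.length = n ∧
          (Alt true (c * n) (fun v => ∃ t X, A.AcceptsAt w (α ++ v) t X) → w ∈ M) ∧
          (w ∈ M → Alt true (c * n) fun v => A.WithinD E c C w (α ++ v))}.ncard : ℝ) ≤
          2 ^ n / 2 + c' * ((min α.length (n - α.length) : ℕ) + 1) *
            2 ^ (((n : ℝ) + α.length) / 2) := by
  obtain ⟨L, s, h1, h2, h3, h4⟩ := Pool.Agent.Helper78.Gen2.alt_main (accD Q c) NB (LS.accD Q c)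
    LS.NB c
  refine ⟨L, s, h1, h2, h3, fun A E C => ?_⟩
  have h := h4 (fun w y => ∃ t X, A.AcceptsAt w y t X) (A.WithinD E c C) (exists_goodD Q c A E C)
  simp only [Pool.Agent.Helper28.Few.alt_iff] at h
  exact h

/-- Languages accepted by parallel machines without phases with incompressible memory are in linear
space. -/
theorem parD_lin (Q : Sim) (c : ℕ) (A : PAR) (E : Decomp) (L : Set (List Bool)) (C : ℝ)
    (h1 : ∀ w, Alt true (c * w.length) (fun v => ∃ t X, A.AcceptsAt w v t X) → w ∈ L)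
    (h2 : ∀ w ∈ L, Alt true (c * w.length) (A.WithinD E c C w)) : DLINSPACE L :=
  Pool.Agent.Helper78.Gen2.alt_lin (accD Q c) NB (LS.accD Q c) LS.NB c L
    (fun w y => ∃ t X, A.AcceptsAt w y t X) (A.WithinD E c C) (exists_goodD Q c A E C)
    (fun w h => h1 w ((Pool.Agent.Helper28.Few.alt_iff _ _ _).1 h))
    (fun w hw => (Pool.Agent.Helper28.Few.alt_iff _ _ _).2 (h2 w hw))

end Pool.Agent.Helper92.RT
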