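import Pool.Agent.Helper92.RTS.Defs
import Pool.Agent.Helper92.RT.Main
import Pool.Agent.Helper81.Sus2.LSW
import Pool.Agent.Helper81.Sus2.DEC
import Pool.Agent.Helper31.SusD.Grd

/-!
# Parallel machines and descriptions of their memory: numbers
-/

set_option exponentiation.threshold 50000

namespace Pool.Agent.Helper92.RT

open Pool.Agent.Helper65.LinSpace Pool.Agent.Helper78.Mpc Pool.Agent.Helper28.Ram Finset Filter
open Pool.Agent.Helper65.RT (qT CT Par LSM Sim)
open Pool.Agent.Helper28.Long (ZL)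
open Pool.Agent.Helper81.Sus2 (Decomp CodE)

/-! ### Words -/

variable {A : PAR} {w y : List Bool}

theorem run_conf (u v : ℕ) : A.run w y (A.conf w y u) v = A.conf w y (u + v) := by
  unfold PAR.conf
  rw [run_add]

theorem fits_of_all {f : ℕ → List Bool → List Bool} {r s a b m t : ℕ}
    (h : A.AllFit f r s a b m t) (u₀ : ℕ) (u : ℕ) : ∀ x : List Bool, u₀ + u ≤ t → x.length ≤ s →
      A.Fits (fun v => f (u₀ + v)) r s a b m u x := by
  induction u with
  | zero => exact fun x hu hx => ⟨hx, (h x hx).1 _ hu⟩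
  | succ u ih =>
    intro x hu hx
    refine ⟨hx, (h x hx).1 _ hu, ?_⟩
    by_cases hh : x.head? = some false
    · exact Or.inl hh
    · right
      obtain ⟨n, h1, h2, h3, h4⟩ := (h x hx).2 hh (u₀ + u) (by omega)
      exact ⟨n, h1, h2, h3, fun i hi =>
        ⟨(h4 i hi).1, (h4 i hi).2.2, ih _ (by omega) (h4 i hi).2.1⟩⟩

/-! ### The decompressor on numbers -/

/-- The parameters of the decompressor. -/
def dpr (P : Prm) (eD eX : ℕ) : Pool.Agent.Helper81.Sus2.Prm where
  eA := 0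
  eN := 0
  eW := 0
  eK := 0
  eG := 0
  eR := 0
  eD := eD
  eX := eX
  ini := 0
  B0 := 0
  st := 0
  Λ := P.Λ
  β := P.β
  B := P.B
  x := P.x
  y := P.y
  S := 0
  Z := P.M
  u := 0
  V := 0
  z := 0

/-- The content of the register `x` in the memory with the number `c`: the number `1` is that of the
empty memory, and `c > 1` that of the memory with the description `c - 1`. -/
def dm (P : Prm) (eD eX c x : ℕ) : ℕ := ifz (lt01 1 c) 1 ((dpr P eD eX).lk (c - 1) x)

theorem exists_codE (E : Decomp) : ∃ eD eX c : ℕ, ∀ P : Prm,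
    c * (4 * P.M + 16) ≤ P.Λ → c + P.Λ + 4 * P.M + 16 ≤ P.β → 2 ^ (P.M + 1) ≤ P.B →
    CodE E (dpr P eD eX) := by
  obtain ⟨eD, cD, hD⟩ := fnN_spec E.addr_lin
  obtain ⟨eX, cX, hX⟩ := fnN_spec E.next_lin
  refine ⟨eD, eX, cD + cX, fun P h1 h2 h3 => ⟨fun σ hσ => ?_, fun σ u hσ hu => ?_⟩⟩
  · have hσ' : σ.length ≤ P.M := hσ
    refine hD σ P.M P.Λ P.β P.B ?_ ?_ h3
    · refine le_trans (Nat.mul_le_mul (Nat.le_add_right _ _) (show P.M + σ.length + 2 ≤
        4 * P.M + 16 by omega)) h1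
    · omega
  · have hσ' : σ.length ≤ P.M := hσ
    have e : (dpr P eD eX).fX (num σ) (num u) =
        fnN eX P.M P.Λ P.β P.B (num (sd σ ++ u)) := by
      rw [← catN_num, ← sdN_num]
      rfl
    rw [e]
    have hl : (sd σ ++ u).length ≤ 2 * P.M + 1 + 7 := by
      rw [List.length_append, length_sd]
      omega
    refine hX (sd σ ++ u) P.M P.Λ P.β P.B ?_ ?_ h3
    · refine le_trans (Nat.mul_le_mul (Nat.le_add_left _ _) (show P.M + (sd σ ++ u).length + 2 ≤
        4 * P.M + 16 by omega)) h1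
    · omega

/-! ### The simulation from a description -/

/-- At most `τ` phases. -/
def mK (m : Pool.Agent.Helper65.RT.Mach) (τ : ℕ) : Pool.Agent.Helper65.RT.Mach where
  σ := m.σ
  a := m.a
  b := m.b
  E := m.E
  G := m.G
  K := min τ m.K
  q := m.q
  g := m.g
  o := m.o
  t0 := m.t0
  root := m.root

theorem Zt_mK (m : Pool.Agent.Helper65.RT.Mach) (τ : ℕ) (R : ℕ → ℕ) (x i : ℕ) :
    (mK m τ).Zt R x i = m.Zt R x i := by
  induction i with
  | zero => rfl
  | succ i ih =>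
    show (mK m τ).Zt R x i + 2 ^ (m.a * i) *
      m.g x i ((mK m τ).Zt R x i) (R (m.q x i ((mK m τ).Zt R x i))) = _
    rw [ih]
    rfl

theorem T_mK (m : Pool.Agent.Helper65.RT.Mach) (τ t : ℕ) : (mK m τ).T t = m.T t := by
  induction t with
  | zero => rfl
  | succ t ih =>
    funext x
    show m.o x ((mK m τ).Zt ((mK m τ).T t) x (m.G * m.E)) = _
    rw [ih, Zt_mK]
    rfl

theorem ok_mK {m : Pool.Agent.Helper65.RT.Mach} (h : m.Ok) (τ : ℕ) : (mK m τ).Ok :=
  ⟨h.hσ, h.ha, h.hb, h.hE, h.hG, h.hq, h.hg, h.ho, h.ht0, h.hroot⟩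

theorem par_mK {n : ℕ} {m : Pool.Agent.Helper65.RT.Mach} (h : Par n m) (τ : ℕ) :
    Par n (mK m τ) := by
  obtain ⟨h1, h2, h3, h4⟩ := h
  have hK : min τ m.K ≤ m.K := min_le_right _ _
  refine ⟨h1, ?_, ?_, ?_⟩
  · exact (Nat.mul_le_mul_right _ hK).trans h2
  · exact (Nat.mul_le_mul_right _ (Nat.succ_le_succ hK)).trans h3
  · exact (Nat.mul_le_mul_right _ (Nat.succ_le_succ hK)).trans h4

/-- The content of the register `X`, `τ` phases after the memory with the number `c`. -/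
noncomputable def FD (Q : Sim) (n : ℕ) (P : Prm) (eD eX c τ X : ℕ) : ℕ :=
  Q.sim n (mK (P.mach (dm P eD eX c) X) τ)

/-- `1` if the memory with the number `d` contains the right content of the register `x`, or `x` is
not relevant. -/
noncomputable def okx (Q : Sim) (n : ℕ) (P : Prm) (eD eX c τ d x : ℕ) : ℕ :=
  ifz (rt x) 1 (eq01 (FD Q n P eD eX c τ x) (dm P eD eX d x))

/-- `1` if the number `d` is that of the memory `τ` phases after the memory with the number `c`. -/
noncomputable def chk (Q : Sim) (n : ℕ) (P : Prm) (eD eX c τ d : ℕ) : ℕ :=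
  lt01 0 τ * (lt01 1 d *
    eq01 (∑ x ∈ range (2 ^ (P.S + 1)), (1 - okx Q n P eD eX c τ d x)) 0)

/-- `1` if the register `X` accepts `τ` phases after the memory with the number `c`. -/
noncomputable def acc (Q : Sim) (n : ℕ) (P : Prm) (eD eX X c τ : ℕ) : ℕ :=
  lt01 0 c * accN (FD Q n P eD eX c τ X)

/-- The number of the numbers of memories. -/
def cz (c n : ℕ) : ℕ := 2 ^ (c * (n + 1) + 1) + 1

/-- Not `0` if the register `X` accepts. -/
noncomputable def rch (Q : Sim) (c n : ℕ) (P : Prm) (eD eX X : ℕ) : ℕ :=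
  ∑ j ∈ range (cz c n), ∑ τ ∈ range (P.K + 1), acc Q n P eD eX X
    (Pool.Agent.Helper31.SusD.itr (chk Q n P eD eX) (P.K + 1) (cz c n) j) τ

/-! ### Correctness -/

/-- All that is needed about the parameters. -/
structure Ready (A : PAR) (w y : List Bool) (n : ℕ) (P : Prm) : Prop where
  cod : Cod A w y P
  par : ∀ (f : ℕ → ℕ) (X : ℕ), Par n (P.mach f X)
  hE : 0 < P.E
  hG : 0 < P.G

theorem FD_eq (Q : Sim) {n : ℕ} {P : Prm} (h : Ready A w y n P) (eD eX c : ℕ) {τ : ℕ}
    (hτ : τ ≤ P.K) (X : ℕ) :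
    FD Q n P eD eX c τ X = (P.mach (dm P eD eX c) X).T τ (capN P.S X) := by
  unfold FD
  rw [Q.eq _ _ (ok_mK (ok_mach P _ _ h.hE h.hG) τ) (par_mK (h.par _ _) τ), T_mK]
  show (P.mach (dm P eD eX c) X).T (min τ P.K) (capN P.S X) = _
  rw [min_eq_left hτ]

/-- The memory with the number `c` contains no wrong content of the memory after `t` phases. -/
def Rs (A : PAR) (w y : List Bool) (P : Prm) (eD eX c t : ℕ) : Prop :=
  ∀ x : List Bool, x.length ≤ P.S → x.head? ≠ some false →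
    dm P eD eX c (num x) = 0 ∨ dm P eD eX c (num x) = num (A.conf w y t x)

/-- The memory with the number `c` is the memory after `t` phases. -/
def Rc (A : PAR) (w y : List Bool) (P : Prm) (eD eX c t : ℕ) : Prop :=
  ∀ x : List Bool, x.length ≤ P.S → x.head? ≠ some false →
    dm P eD eX c (num x) = num (A.conf w y t x)

theorem dm_one (P : Prm) (eD eX x : ℕ) : dm P eD eX 1 x = 1 := rfl

theorem rc_one (A : PAR) (w y : List Bool) (P : Prm) (eD eX : ℕ) : Rc A w y P eD eX 1 0 := by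
  intro x _ hx
  have h : A.conf w y 0 x = [] := by
    unfold PAR.conf
    rw [run_zero hx]
  rw [dm_one, h]
  rfl

theorem FD_sound (Q : Sim) {n : ℕ} {P : Prm} (h : Ready A w y n P) {eD eX c t : ℕ}
    (hR : Rs A w y P eD eX c t) {τ : ℕ} (hτ : τ ≤ P.K) {x : List Bool} (hx : x.length ≤ P.S) :
    FD Q n P eD eX c τ (num x) = 0 ∨ FD Q n P eD eX c τ (num x) = num (A.conf w y (t + τ) x) := by
  rw [FD_eq Q h eD eX c hτ, capN_num hx, ← run_conf]
  rcases T_sound (f₀ := dm P eD eX c) (X := num x) (R₀ := A.conf w y t) h.cod hR τ x hx with h1 | h1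
  · exact Or.inl h1
  · exact Or.inr h1.1

theorem FD_complete (Q : Sim) {n : ℕ} {P : Prm} (h : Ready A w y n P) {eD eX c t : ℕ}
    (hR : Rc A w y P eD eX c t) {τ : ℕ} (hτ : τ ≤ P.K) {x : List Bool} (hx : x.length ≤ P.S)
    {r t' : ℕ} (hr : r ≤ P.G * P.E) (hall : A.AllFit (A.conf w y) r P.S P.D P.V P.M t')
    (ht : t + τ ≤ t') : FD Q n P eD eX c τ (num x) = num (A.conf w y (t + τ) x) := by
  have hf : A.Fits (A.run w y (A.conf w y t)) r P.S P.D P.V P.M τ x := by
    have e : (fun v => A.conf w y (t + v)) = A.run w y (A.conf w y t) := by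
      funext v
      rw [run_conf]
    rw [← e]
    exact fits_of_all hall t τ x ht hx
  rw [FD_eq Q h eD eX c hτ, capN_num hx, ← run_conf]
  exact T_fit (f₀ := dm P eD eX c) (X := num x) (R₀ := A.conf w y t) h.cod hR hr τ x hf

theorem rt_le (x : ℕ) : rt x ≤ 1 := by
  unfold rt lt01
  split_ifs
  · omega
  · rw [zero_mul]
    exact Nat.zero_le 1

theorem chk_ne {Q : Sim} {n : ℕ} {P : Prm} {eD eX c τ d : ℕ}
    (h : chk Q n P eD eX c τ d ≠ 0) : 0 < τ ∧ 1 < d ∧ ∀ x < 2 ^ (P.S + 1), rt x ≠ 0 →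
      FD Q n P eD eX c τ x = dm P eD eX d x := by
  unfold chk at h
  have h1 := right_ne_zero_of_mul (right_ne_zero_of_mul h)
  refine ⟨lt01_ne (left_ne_zero_of_mul h), lt01_ne (left_ne_zero_of_mul (right_ne_zero_of_mul h)),
    fun x hx hr => ?_⟩
  have h2 : ∑ x ∈ range (2 ^ (P.S + 1)), (1 - okx Q n P eD eX c τ d x) = 0 := by
    by_contra hcon
    apply h1
    unfold eq01
    rw [if_neg hcon]
  rw [sum_eq_zero_iff] at h2
  have h3 := h2 x (mem_range.2 hx)
  by_contra hcon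
  have h4 : okx Q n P eD eX c τ d x = 0 := by
    unfold okx eq01
    rw [ifz_ne hr, if_neg hcon]
  omega

theorem chk_sound (Q : Sim) {n : ℕ} {P : Prm} (h : Ready A w y n P) {eD eX c t : ℕ}
    (hR : Rs A w y P eD eX c t) {τ d : ℕ} (hτ : τ ≤ P.K) (hc : chk Q n P eD eX c τ d ≠ 0) :
    Rs A w y P eD eX d (t + τ) := by
  intro x hx hh
  obtain ⟨_, _, h3⟩ := chk_ne hc
  have h4 := h3 (num x) (Pool.Agent.Helper81.Sus2.num_lt_pow hx) (by rw [rt_num hh]; exact one_ne_zero)
  rw [← h4]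
  exact FD_sound Q h hR hτ hx

theorem chk_exact (Q : Sim) {n : ℕ} {P : Prm} (h : Ready A w y n P) {eD eX c t : ℕ}
    (hR : Rc A w y P eD eX c t) {τ d : ℕ} (hτ : τ ≤ P.K) {r t' : ℕ} (hr : r ≤ P.G * P.E)
    (hall : A.AllFit (A.conf w y) r P.S P.D P.V P.M t') (ht : t + τ ≤ t')
    (hc : chk Q n P eD eX c τ d ≠ 0) : Rc A w y P eD eX d (t + τ) := by
  intro x hx hh
  obtain ⟨_, _, h3⟩ := chk_ne hc
  have h4 := h3 (num x) (Pool.Agent.Helper81.Sus2.num_lt_pow hx) (by rw [rt_num hh]; exact one_ne_zero)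
  rw [← h4]
  exact FD_complete Q h hR hτ hx hr hall ht

theorem chk_of (Q : Sim) {n : ℕ} {P : Prm} (h : Ready A w y n P) {eD eX c t : ℕ}
    (hR : Rc A w y P eD eX c t) {τ : ℕ} (h0 : 0 < τ) (hτ : τ ≤ P.K) {r t' : ℕ}
    (hr : r ≤ P.G * P.E) (hall : A.AllFit (A.conf w y) r P.S P.D P.V P.M t') (ht : t + τ ≤ t')
    {E : Decomp} (hE : CodE E (dpr P eD eX)) {D : List Bool}
    (hD : Describes E w y P.M P.S D (A.conf w y (t + τ))) :
    chk Q n P eD eX c τ (num D + 1) ≠ 0 := by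
  have hD0 := num_pos D
  have h1 : ∀ x ∈ range (2 ^ (P.S + 1)), 1 - okx Q n P eD eX c τ (num D + 1) x = 0 := by
    intro x hx
    have h2 : okx Q n P eD eX c τ (num D + 1) x = 1 := by
      unfold okx
      by_cases hr : rt x = 0
      · rw [hr, ifz_zero]
      · rw [ifz_ne hr]
        obtain ⟨u, hu, hu'⟩ := rt_ne hr
        have hul : u.length ≤ P.S := len_of_num_lt (by rw [hu]; exact mem_range.1 hx)
        have h3 : FD Q n P eD eX c τ (num u) = num (A.conf w y (t + τ) u) :=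
          FD_complete Q h hR hτ hul (by assumption) hall ht
        have h4 : dm P eD eX (num D + 1) (num u) = num (A.conf w y (t + τ) u) := by
          unfold dm lt01
          rw [if_pos (by omega), ifz_ne one_ne_zero, Nat.add_sub_cancel]
          exact (Pool.Agent.Helper81.Sus2.dec E w y (dpr P eD eX) hE h.cod.hx h.cod.hy D u _).1
            (hD u hul hu')
        rw [← hu, h3, h4]
        unfold eq01
        rw [if_pos rfl]
    rw [h2]
  unfold chk lt01
  rw [if_pos h0, if_pos (by omega), sum_eq_zero h1]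
  unfold eq01
  rw [if_pos rfl]
  norm_num

end Pool.Agent.Helper92.RT
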