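import Pool.Agent.Helper92.RTS.Main
import Pool.Agent.Helper65.RT.Final

open Pool.Agent.Helper65.LinSpace Pool.Agent.Helper28.Ram Pool.Agent.Helper92.RT
open Pool.Agent.Helper81.Sus2 (Decomp)

namespace Pool.Agent.Helper92.RTS

/-- **Parallel machines with adaptive reads need phases with incompressible memory to compute all of
linear space.** Let `c` be a number. Consider parallel machines with a processor and a register for
every word, which are given an input word of length `n`, an advice word, and a word of length `c n`
whose letters are chosen in turn by two players. In a phase a processor reads up to `r` registers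
one after the other, where the name of the next register may depend on what was read before; then it
writes its own register. For the processors and registers with names of at most `s` bits the noted
words have at most `a`, the contents at most `b` and the states at most `m` bits, and
`d ((e + l) s + r l / e) l ≤ C (n + 1)` and `(e (a + b) + r a + m) l ^ 2 ≤ C (n + 1)` for some
`e ≥ 1`, where `l = ⌊log₂ n⌋ + 1`. The number of phases is not bounded, but among any `d` consecutive
phases there is one after which the memory has a description of at most `c (n + 1)` bits. Every
language which is accepted by such a machine is in `DSPACE(n)`. On the other hand there are a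
language `L` in `DSPACE(n)` and masks `s n` of length `n` such that `L` consists of the words `w`
whose inner product with `s |w|` is odd, and for every machine, every decompressor and every `C`
there is a `c'` such that for `M = L` and for `M` the complement of `L`, for all `n` and all advice
words `α`, the machine is correct within these bounds on at most
`2^n / 2 + c' (min (|α|, n - |α|) + 1) 2^((n + |α|) / 2)` words of length `n`. -/
theorem result (c : ℕ) :
    (∀ (A : PAR) (E : Decomp) (L : Set (List Bool)) (C : ℝ),
      (∀ w, Alt true (c * w.length) (fun v => ∃ t X, A.AcceptsAt w v t X) → w ∈ L) →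
      (∀ w ∈ L, Alt true (c * w.length) (A.WithinD E c C w)) → DLINSPACE L) ∧
    ∃ (L : Set (List Bool)) (s : ℕ → List Bool), DLINSPACE L ∧
      (∀ n, (s n).length = n) ∧
      (∀ w, w ∈ L ↔ Odd ((List.zipWith and (s w.length) w).count true)) ∧
      ∀ (A : PAR) (E : Decomp) (C : ℝ), ∃ c' : ℝ, ∀ (n : ℕ) (α : List Bool),
        ∀ M, M = L ∨ M = Lᶜ →
          ({w : List Bool | w.length = n ∧
            (Alt true (c * n) (fun v => ∃ t X, A.AcceptsAt w (α ++ v) t X) → w ∈ M) ∧
            (w ∈ M → Alt true (c * n) fun v => A.WithinD E c C w (α ++ v))}.ncard : ℝ) ≤
          2 ^ n / 2 +
            c' * ((min α.length (n - α.length) : ℕ) + 1) * 2 ^ (((n : ℝ) + α.length) / 2) :=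
  ⟨parD_lin Pool.Agent.Helper65.RT.theSim c, parD_main Pool.Agent.Helper65.RT.theSim c⟩

end Pool.Agent.Helper92.RTS
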